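import Pool.Agent.Helper72.AI.Stmts

set_option autoImplicit false

/-! Packet `S_blaschke` of MP_870acd_co: Blaschke's inequality with its equality case. -/

namespace Pool.Agent.Helper77.AI

open AffInc MeasureTheory

theorem trig_vals : Real.cos (2 * Real.pi / 3) = -1 / 2 ∧
    Real.sin (2 * Real.pi / 3) = Real.sqrt 3 / 2 ∧
    Real.cos (4 * Real.pi / 3) = -1 / 2 ∧ Real.sin (4 * Real.pi / 3) = -(Real.sqrt 3 / 2) := by
  refine ⟨?_, ?_, ?_, ?_⟩
  · have : 2 * Real.pi / 3 = Real.pi - Real.pi / 3 := by ring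
    rw [this, Real.cos_pi_sub, Real.cos_pi_div_three]; norm_num
  · have : 2 * Real.pi / 3 = Real.pi - Real.pi / 3 := by ring
    rw [this, Real.sin_pi_sub, Real.sin_pi_div_three]
  · have : 4 * Real.pi / 3 = Real.pi / 3 + Real.pi := by ring
    rw [this, Real.cos_add_pi, Real.cos_pi_div_three]; norm_num
  · have : 4 * Real.pi / 3 = Real.pi / 3 + Real.pi := by ring
    rw [this, Real.sin_add_pi, Real.sin_pi_div_three]

theorem cos_diffs (θ : ℝ) :
    Real.cos (θ + 4 * Real.pi / 3) - Real.cos (θ + 2 * Real.pi / 3) =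
      Real.sqrt 3 * Real.sin θ ∧
    Real.cos θ - Real.cos (θ + 4 * Real.pi / 3) =
      Real.sqrt 3 * Real.sin (θ + 2 * Real.pi / 3) ∧
    Real.cos (θ + 2 * Real.pi / 3) - Real.cos θ =
      Real.sqrt 3 * Real.sin (θ + 4 * Real.pi / 3) := by
  obtain ⟨h1, h2, h3, h4⟩ := trig_vals
  have h5 : Real.sqrt 3 * Real.sqrt 3 = 3 := Real.mul_self_sqrt (by norm_num)
  rw [Real.cos_add, Real.cos_add, Real.sin_add, Real.sin_add, h1, h2, h3, h4]
  refine ⟨by ring, ?_, ?_⟩
  · linear_combination (-Real.cos θ / 2) * h5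
  · linear_combination (Real.cos θ / 2) * h5

theorem det3_eq (p : ℝ × ℝ) (g : ℝ → ℝ) (θ : ℝ) :
    det3 ![p, (Real.cos (θ + 2 * Real.pi / 3), g (θ + 2 * Real.pi / 3)),
      (Real.cos (θ + 4 * Real.pi / 3), g (θ + 4 * Real.pi / 3))] =
    Real.sqrt 3 * triSum g θ + (p.2 - g θ) * (Real.sqrt 3 * Real.sin θ) +
      (p.1 - Real.cos θ) * (g (θ + 2 * Real.pi / 3) - g (θ + 4 * Real.pi / 3)) := by
  obtain ⟨h1, h2, h3⟩ := cos_diffs θ
  simp only [det3, triSum, Matrix.cons_val_zero, Matrix.cons_val_one, Matrix.cons_val]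
  linear_combination p.2 * h1 + g (θ + 2 * Real.pi / 3) * h2 + g (θ + 4 * Real.pi / 3) * h3

theorem det3_swap (W : Fin 3 → ℝ × ℝ) : det3 ![W 1, W 0, W 2] = -det3 W := by
  simp only [det3, Matrix.cons_val_zero, Matrix.cons_val_one, Matrix.cons_val]
  ring

theorem pf_S_blaschke (h1 : AffInc.S_norm) (h2 : AffInc.S_param) (h3 : AffInc.S_integrate)
    (h4 : AffInc.S_ode) (h5 : AffInc.S_ellipse) : AffInc.S_blaschke := by
  intro G hG X hX
  obtain ⟨Z, hZ, hN⟩ := h1 G hG
  obtain ⟨g, hg⟩ := h2 _ hN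
  set D' := |det3 Z| * det3 X with hD'
  have hZp : 0 < |det3 Z| := abs_pos.2 hZ
  have hs : 0 < Real.sqrt 3 := Real.sqrt_pos.2 (by norm_num)
  have hss : Real.sqrt 3 * Real.sqrt 3 = 3 := Real.mul_self_sqrt (by norm_num)
  have hpi := Real.pi_pos
  have hmax : ∀ Y : Fin 3 → ℝ × ℝ, (∀ i, Y i ∈ T Z '' G) → det3 Y ≤ D' := by
    intro Y hY
    choose W hW hWY using hY
    have e : Y = fun i => T Z (W i) := funext fun i => (hWY i).symm
    rw [e, det3_T]
    have h6 := hX.2 W hW
    have h7 := hX.2 ![W 1, W 0, W 2] (by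
      intro i
      fin_cases i
      · exact hW 1
      · exact hW 0
      · exact hW 2)
    rw [det3_swap] at h7
    have h8 : |det3 W| ≤ det3 X := abs_le.2 ⟨by linarith, h6⟩
    calc det3 Z * det3 W ≤ |det3 Z * det3 W| := le_abs_self _
      _ = |det3 Z| * |det3 W| := abs_mul _ _
      _ ≤ D' := by rw [hD']; gcongr
  have hle : ∀ θ, ∀ p ∈ T Z '' G, Real.sqrt 3 * triSum g θ +
      (p.2 - g θ) * (Real.sqrt 3 * Real.sin θ) +
      (p.1 - Real.cos θ) * (g (θ + 2 * Real.pi / 3) - g (θ + 4 * Real.pi / 3)) ≤ D' := by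
    intro θ p hp
    rw [← det3_eq]
    apply hmax
    intro i
    fin_cases i
    · exact hp
    · exact hg.mem _
    · exact hg.mem _
  have htri : ∀ θ, triSum g θ ≤ D' / Real.sqrt 3 := by
    intro θ
    have h6 := hle θ _ (hg.mem θ)
    simp only [sub_self, zero_mul, add_zero] at h6
    rw [le_div_iff₀ hs]
    linarith
  obtain ⟨h6, h7⟩ := h3 g (D' / Real.sqrt 3) hg.cont hg.per htri
  rw [← hg.area_eq, area_T] at h6 h7
  have hkap : kap = 3 * Real.sqrt 3 / (4 * Real.pi) := rfl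
  -- `2 π D' / √3 - 3 |det Z| area G = (2 π / √3) |det Z| (det X - 2 kap area G)`
  have key : 2 * Real.pi * (D' / Real.sqrt 3) - 3 * (|det3 Z| * area G) =
      2 * Real.pi / Real.sqrt 3 * |det3 Z| * (det3 X - 2 * kap * area G) := by
    rw [hkap, hD']
    field_simp
    ring_nf
    try rw [Real.sq_sqrt (by norm_num : (0:ℝ) ≤ 3)]
    try ring
  have hc : 0 < 2 * Real.pi / Real.sqrt 3 * |det3 Z| := by positivity
  constructor
  · have h8 : 0 ≤ 2 * Real.pi / Real.sqrt 3 * |det3 Z| * (det3 X - 2 * kap * area G) := by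
      rw [← key]; linarith
    have h9 := nonneg_of_mul_nonneg_right h8 hc
    linarith
  · intro heq
    have h8 : 3 * (|det3 Z| * area G) = 2 * Real.pi * (D' / Real.sqrt 3) := by
      have : 2 * Real.pi * (D' / Real.sqrt 3) - 3 * (|det3 Z| * area G) = 0 := by
        rw [key, heq, sub_self, mul_zero]
      linarith
    have h9 := h7 h8
    have h10 : ∀ θ, ∀ p ∈ T Z '' G, (p.2 - g θ) * (Real.sqrt 3 * Real.sin θ) +
        (p.1 - Real.cos θ) * (g (θ + 2 * Real.pi / 3) - g (θ + 4 * Real.pi / 3)) ≤ 0 := by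
      intro θ p hp
      have h11 := hle θ p hp
      rw [h9 θ, mul_div_cancel₀ _ hs.ne'] at h11
      linarith
    obtain ⟨a, b, c, habc⟩ := h4 g hg.cont hg.per
      (by
        intro θ hθ φ _
        have h11 := h10 θ _ (hg.mem φ)
        have hp : 0 < Real.sqrt 3 * Real.sin θ := mul_pos hs hθ
        rw [div_mul_eq_mul_div, ← sub_le_iff_le_add', le_div_iff₀ hp]
        simp only at h11
        nlinarith)
      (by
        intro θ hθ φ _
        have h11 := h10 θ _ (hg.mem φ)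
        have hp : Real.sqrt 3 * Real.sin θ < 0 := mul_neg_of_pos_of_neg hs hθ
        have h12 : (g (θ + 4 * Real.pi / 3) - g (θ + 2 * Real.pi / 3)) /
            (Real.sqrt 3 * Real.sin θ) * (Real.cos φ - Real.cos θ) ≤ g φ - g θ := by
          rw [div_mul_eq_mul_div, div_le_iff_of_neg hp]
          simp only at h11
          nlinarith
        linarith)
    obtain ⟨Y, hY, hYG⟩ := h5 _ g a b c hN hg habc
    refine ⟨fun i => T (invT Z) (Y i), ?_, ?_⟩
    · rw [det3_T]
      refine mul_ne_zero ?_ hY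
      have := det3_invT Z hZ
      intro h0
      rw [h0, mul_zero] at this
      exact zero_ne_one this
    · have h11 : G = T (invT Z) '' (T Z '' G) := by
        rw [Set.image_image]
        simp only [invT_T Z hZ, Set.image_id']
      rw [h11, hYG, Set.image_image]
      exact Set.image_congr fun p _ => T_comp _ _ p

end Pool.Agent.Helper77.AI
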