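import Pool.Agent.Helper72.AI.Stmts

set_option autoImplicit false

/-! Packet `S_large` of MP_870acd_co. -/

namespace Pool.Agent.Helper77.AI

open AffInc MeasureTheory

theorem pf_S_large (h1 : AffInc.S_exist) (h2 : AffInc.S_hex) (h3 : AffInc.S_choice) :
    AffInc.S_large := by
  intro G t hG ht0 ht1 hs hsk
  set s := ∑ i, t i with hsdef
  have hs0 : 0 < 1 + s := by linarith
  have hkap : 0 < kap := by unfold kap; positivity
  obtain ⟨r, c, hr0, hr1, hrs, hc1, hrc, halt⟩ := h3 t s ht0 ht1 hsdef hs hsk
  obtain ⟨Z, hZ, hZa⟩ := h1 G r c hG hr0 hr1 hrs hc1 hrc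
  have hG0 := hG.area_pos
  have hZ0 : 0 < |det3 Z| := by
    rcases (abs_nonneg (det3 Z)).lt_or_eq with h | h
    · exact h
    · rw [← h, zero_mul] at hZa
      linarith
  have hrr : ∀ i j : Fin 3, i ≠ j → r i + r j ≤ 1 := by
    intro i j _
    linarith [hr1 i, hr1 j]
  have hhex := h2 G hG.cvx Z r hr0 hrr hZ
  rcases halt with ⟨ha, hb⟩ | ⟨ha, hb⟩
  · refine ⟨![(1 / 2 : ℝ) • (Z 1 + Z 2), (1 / 2 : ℝ) • (Z 0 + Z 2), (1 / 2 : ℝ) • (Z 0 + Z 1)],
      ?_, ?_⟩
    · intro p hp
      have h4 := hhex (fun i => (1 - lam p i) / 2)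
        (fun i => by have := (hp i).2; show 0 ≤ (1 - lam p i) / 2; linarith)
        (by
          have := lam_sum p
          rw [← Finset.sum_div, Finset.sum_sub_distrib, this]
          norm_num)
        (fun i => by
          have h5 := (hp i).1
          have h6 := ha i
          show (1 - lam p i) / 2 ≤ 1 - r i
          linarith)
      convert h4 using 1
      simp only [T, Fin.sum_univ_three, lam, Matrix.cons_val_zero, Matrix.cons_val_one,
        Matrix.cons_val]
      ext
      · simp
        ring
      · simp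
        ring
    · have hd : det3 ![(1 / 2 : ℝ) • (Z 1 + Z 2), (1 / 2 : ℝ) • (Z 0 + Z 2),
          (1 / 2 : ℝ) • (Z 0 + Z 1)] = det3 Z / 4 := by
        simp only [det3, Matrix.cons_val_zero, Matrix.cons_val_one, Matrix.cons_val,
          Prod.smul_fst, Prod.smul_snd, Prod.fst_add, Prod.snd_add, smul_eq_mul]
        ring
      rw [hd, abs_div, abs_of_pos (by norm_num : (0 : ℝ) < 4)]
      have h5 : 2 * kap * area G ≤ kap * (|det3 Z| * c) := by
        have := mul_le_mul_of_nonneg_left hZa hkap.le
        linarith
      have h6 : 4 * kap * c * |det3 Z| < (1 + s) * |det3 Z| := mul_lt_mul_of_pos_right hb hZ0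
      nlinarith
  · refine ⟨fun i => (1 / (1 + s)) • (Z i + (t 0 • Z 0 + t 1 • Z 1 + t 2 • Z 2)), ?_, ?_⟩
    · intro p hp
      have h4 := hhex (fun i => (lam p i + t i) / (1 + s))
        (fun i => by
          have := (hp i).1
          exact div_nonneg (by linarith) hs0.le)
        (by
          have := lam_sum p
          rw [← Finset.sum_div, Finset.sum_add_distrib, this, ← hsdef]
          exact div_self hs0.ne')
        (fun i => by
          have h5 := (hp i).2
          have h6 := ha i
          show (lam p i + t i) / (1 + s) ≤ 1 - r i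
          have h7 : (lam p i + t i) / (1 + s) ≤ (1 + t i) / (1 + s) := by gcongr
          have h8 : (1 + t i) / (1 + s) = 1 - (s - t i) / (1 + s) := by field_simp; ring
          linarith)
      convert h4 using 1
      simp only [T, Fin.sum_univ_three, lam, Matrix.cons_val_zero, Matrix.cons_val_one,
        Matrix.cons_val]
      ext
      · simp
        field_simp
        ring
      · simp
        field_simp
        ring
    · have hd : det3 (fun i => (1 / (1 + s)) • (Z i + (t 0 • Z 0 + t 1 • Z 1 + t 2 • Z 2))) =
          det3 Z / (1 + s) ^ 2 := by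
        simp only [det3, Prod.smul_fst, Prod.smul_snd, Prod.fst_add, Prod.snd_add, smul_eq_mul]
        field_simp
        ring
      rw [hd, abs_div, abs_of_pos (by positivity : (0 : ℝ) < (1 + s) ^ 2)]
      have h5 : 2 * kap * area G ≤ kap * (|det3 Z| * c) := by
        have := mul_le_mul_of_nonneg_left hZa hkap.le
        linarith
      have h6 : kap * c * (1 + s) * |det3 Z| < 1 * |det3 Z| := mul_lt_mul_of_pos_right hb hZ0
      have h7 : (1 + s) * (|det3 Z| / (1 + s) ^ 2) = |det3 Z| / (1 + s) := by
        field_simp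
      rw [h7, lt_div_iff₀ hs0]
      nlinarith

end Pool.Agent.Helper77.AI
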